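import Pool.Agent.H34.GU.Targets1
import Pool.Agent.H86.GZ.PSZ

/-!
Row PSU of the board gu (MP_52e316_nt): the additive character modulo `N`, Parseval.
-/

set_option autoImplicit false

namespace Pool.Agent.H40.GUM

open Pool.Agent.H34.GM Pool.Agent.H34.GZ Pool.Agent.H34.GU

theorem psn_zero (N : ℕ) : psn N 0 = 1 := by
  unfold psn
  rw [ZMod.val_zero]
  simp [psi_ee_zero]

theorem psn_add (N : ℕ) [NeZero N] (a b : ZMod N) : psn N (a + b) = psn N a * psn N b :=
  Pool.Agent.H86.GZ.psz_add N a b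

theorem psn_norm (N : ℕ) (a : ZMod N) : ‖psn N a‖ = 1 := psi_ee_norm _

theorem psn_neg (N : ℕ) [NeZero N] (a : ZMod N) : psn N (-a) = (starRingEnd ℂ) (psn N a) := by
  have h1 := psn_add N (-a) a
  rw [neg_add_cancel, psn_zero] at h1
  rw [← Complex.inv_eq_conj (psn_norm N a)]
  exact eq_inv_of_mul_eq_one_left h1.symm

theorem dt_addl {m N : ℕ} (u v y : VN m N) : dt (u + v) y = dt u y + dt v y := by
  unfold dt
  simp only [Pi.add_apply, add_mul, Finset.sum_add_distrib]

theorem dt_sub {m N : ℕ} (v y z : VN m N) : dt v (y - z) = dt v y - dt v z := by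
  unfold dt
  simp only [Pi.sub_apply, mul_sub, Finset.sum_sub_distrib]

/-- orthogonality -/
theorem psn_orth {m N : ℕ} [NeZero N] (z : VN m N) (hz : z ≠ 0) :
    ∑ v : VN m N, psn N (dt v z) = 0 := by
  have h1 : ∃ v0 : VN m N, psn N (dt v0 z) ≠ 1 := by
    by_contra hcon
    push Not at hcon
    refine hz (funext fun i => ?_)
    have h2 := hcon (Pi.single i 1)
    have h3 : dt (Pi.single i 1 : VN m N) z = z i := by
      unfold dt
      rw [Finset.sum_eq_single i]
      · rw [Pi.single_eq_same, one_mul]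
      · intro j _ hj
        rw [Pi.single_eq_of_ne hj, zero_mul]
      · intro h
        exact absurd (Finset.mem_univ i) h
    rw [h3] at h2
    exact Pool.Agent.H86.GZ.psz_one N (z i) h2
  obtain ⟨v0, hv0⟩ := h1
  have h2 : ∑ v : VN m N, psn N (dt v z) = psn N (dt v0 z) * ∑ v : VN m N, psn N (dt v z) := by
    rw [Finset.mul_sum]
    refine (Fintype.sum_equiv (Equiv.addLeft v0) _ _ ?_).symm
    intro v
    rw [← psn_add, ← dt_addl]
    rfl
  have h3 : (psn N (dt v0 z) - 1) * ∑ v : VN m N, psn N (dt v z) = 0 := by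
    rw [sub_mul, one_mul, ← h2, sub_self]
  rcases mul_eq_zero.1 h3 with h4 | h4
  · exact absurd (sub_eq_zero.1 h4) hv0
  · exact h4

theorem psn_sum {m N : ℕ} [NeZero N] (y z : VN m N) :
    ∑ v : VN m N, psn N (dt v y) * (starRingEnd ℂ) (psn N (dt v z)) =
      if y = z then (N : ℂ) ^ m else 0 := by
  have h1 : ∀ v : VN m N, psn N (dt v y) * (starRingEnd ℂ) (psn N (dt v z)) =
      psn N (dt v (y - z)) := by
    intro v
    rw [← psn_neg, ← psn_add, dt_sub, sub_eq_add_neg]
  rw [Finset.sum_congr rfl fun v _ => h1 v]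
  split_ifs with h
  · subst h
    have h2 : ∀ v : VN m N, psn N (dt v (y - y)) = 1 := by
      intro v
      rw [dt_sub, sub_self, psn_zero]
    rw [Finset.sum_congr rfl fun v _ => h2 v, Finset.sum_const, Finset.card_univ, nsmul_eq_mul,
      mul_one]
    simp only [Fintype.card_fun, Fintype.card_fin, ZMod.card, Nat.cast_pow]
  · exact psn_orth _ (sub_ne_zero.2 h)

theorem pf_PSU : T_PSU := by
  intro m N _ _ _
  refine ⟨psn_zero N, psn_add N, psn_norm N, psn_neg N, fun f => ?_⟩
  have h1 : ∀ z : ℂ, ((‖z‖ ^ 2 : ℝ) : ℂ) = z * (starRingEnd ℂ) z := by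
    intro z
    rw [Complex.mul_conj, Complex.normSq_eq_norm_sq]
  have h2 : ((∑ v : VN m N, ‖∑ y, psn N (dt v y) * f y‖ ^ 2 : ℝ) : ℂ) =
      (((N : ℝ) ^ m * ∑ y, ‖f y‖ ^ 2 : ℝ) : ℂ) := by
    rw [Complex.ofReal_sum, Complex.ofReal_mul, Complex.ofReal_sum, Complex.ofReal_pow,
      Complex.ofReal_natCast]
    calc ∑ v : VN m N, ((‖∑ y, psn N (dt v y) * f y‖ ^ 2 : ℝ) : ℂ) =
        ∑ v : VN m N, ∑ y, ∑ z, (psn N (dt v y) * (starRingEnd ℂ) (psn N (dt v z))) *
          (f y * (starRingEnd ℂ) (f z)) := by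
          refine Finset.sum_congr rfl fun v _ => ?_
          rw [h1, map_sum, Finset.sum_mul_sum]
          refine Finset.sum_congr rfl fun y _ => Finset.sum_congr rfl fun z _ => ?_
          rw [map_mul]
          ring
      _ = ∑ y, ∑ z, (∑ v : VN m N, psn N (dt v y) * (starRingEnd ℂ) (psn N (dt v z))) *
          (f y * (starRingEnd ℂ) (f z)) := by
          rw [Finset.sum_comm]
          refine Finset.sum_congr rfl fun y _ => ?_
          rw [Finset.sum_comm]
          exact Finset.sum_congr rfl fun z _ => (Finset.sum_mul _ _ _).symm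
      _ = ∑ y, (N : ℂ) ^ m * (f y * (starRingEnd ℂ) (f y)) := by
          refine Finset.sum_congr rfl fun y _ => ?_
          rw [Finset.sum_eq_single y]
          · rw [psn_sum, if_pos rfl]
          · intro z _ hz
            rw [psn_sum, if_neg (Ne.symm hz), zero_mul]
          · intro h
            exact absurd (Finset.mem_univ y) h
      _ = (N : ℂ) ^ m * ∑ y, ((‖f y‖ ^ 2 : ℝ) : ℂ) := by
          rw [Finset.mul_sum]
          exact Finset.sum_congr rfl fun y _ => by rw [h1]
  exact_mod_cast h2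

end Pool.Agent.H40.GUM
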